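import Pool.Agent.U569.WN.ThinMW
import Pool.Agent.N647.TS.SurfT

/-!
# Local functions over number fields and surfaces, for all well distributed families

`Pool.Agent.N647.TS.genT`, `genpT`, `genRT`, `genVT` and `surfT` (helper647) for arbitrary well distributed families in place
of the integer parts of generalised polynomials.
-/

set_option autoImplicit false

namespace Pool.Agent.U569.WN

open Finset NumberField IsDedekindDomain
open Pool.Agent.TH894.NE (mean box mem_box)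
open Pool.Agent.TH894.NF (pr pr_prime)
open Pool.Agent.N842.HS (pr_mono pi_pr pr_bound)
open Pool.Agent.N647.TS (WellN)

open Classical in
/-- **Products of local functions at several consecutive primes.** -/
theorem genTW (d s : ℕ) (hs : 1 ≤ s) (δ : ℝ) (hδ : 0 < δ) (A B : ℕ) {Θ : Type} (Q : Finset Θ)
    (F : Θ → ℕ → (Fin d → ℕ) → ℝ) (M : Θ → ℕ → ℝ)
    (hper : ∀ θ ∈ Q, ∀ p, p.Prime → ∀ m, F θ p m = F θ p (fun j => m j % p))
    (hbd : ∀ θ ∈ Q, ∃ C : ℝ, ∀ p, p.Prime → (∀ m, |F θ p m| ≤ C) ∧ |M θ p| ≤ C)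
    (hmean : ∀ θ ∈ Q, ∃ C : ℝ, 0 ≤ C ∧ ∀ p, p.Prime → |mean d p (F θ p) - M θ p| ≤ C / Real.sqrt p) :
    ∃ M₀ y₀ : ℕ, ∀ (y : ℕ) (S : Finset ℕ) (u : ℕ → Fin d → ℕ) (H : ℕ), y₀ ≤ y → WellN S u H →
    ∀ W : ℕ → Set (ℕ → ℝ), (∀ x, (W x).Finite ∧ (W x).ncard ≤ x ^ B) → (∀ x, ∀ w ∈ W x, ∀ k, |w k| ≤ 1) →
    ∀ E : (Fin d → ℕ) → Prop,
    (∀ m : Fin d → ℕ, (∀ x : ℕ, y ≤ x → x ^ M₀ ≤ 2 * H + 1 → ∀ w ∈ W x, ∀ q : Fin s → Θ, (∀ e, q e ∈ Q) →
      |∑ k ∈ range x, w k * ∏ e : Fin s, F (q e) (pr (k + e)) m - ∑ k ∈ range x, w k * ∏ e : Fin s, M (q e) (pr (k + e))| ≤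
        Real.sqrt (max 1 (∑ k ∈ range x, w k ^ 2)) * (x : ℝ) ^ δ) → E m) →
    ((S.filter fun t => ¬ E (u t)).card : ℝ) ≤ 1 / (y : ℝ) ^ A * S.card := by
  have hch : ∀ θ : {θ // θ ∈ Q}, ∃ C : ℝ, 0 ≤ C ∧ ∀ p : ℕ, p.Prime → |mean d p (F θ p) - M θ p| ≤ C / Real.sqrt p :=
    fun θ => hmean θ.1 θ.2
  choose C hC0 hC using hch
  have hch2 : ∀ θ : {θ // θ ∈ Q}, ∃ C : ℝ, 0 ≤ C ∧ ∀ p : ℕ, p.Prime → (∀ m, |F θ p m| ≤ C) ∧ |M θ p| ≤ C := by
    intro θ
    obtain ⟨C, hC⟩ := hbd θ.1 θ.2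
    exact ⟨C, (abs_nonneg _).trans (hC 2 Nat.prime_two).2, hC⟩
  choose β hβ0 hβ using hch2
  obtain ⟨C', hC'⟩ : ∃ C' : ℝ, C' = ∑ θ, C θ := ⟨_, rfl⟩
  have hC'0 : 0 ≤ C' := by
    rw [hC']
    exact sum_nonneg fun θ _ => hC0 θ
  obtain ⟨B', hB'⟩ : ∃ B' : ℝ, B' = 1 + ∑ θ, β θ := ⟨_, rfl⟩
  have hββ : ∀ θ, β θ ≤ B' := by
    intro θ
    have h1 : β θ ≤ ∑ θ, β θ := single_le_sum (f := β) (fun θ _ => hβ0 θ) (mem_univ θ)
    rw [hB']
    linarith
  have hB'1 : 1 ≤ B' := by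
    rw [hB']
    have : 0 ≤ ∑ θ, β θ := sum_nonneg fun θ _ => hβ0 θ
    linarith
  obtain ⟨M₀, y₀, hM⟩ := thinMW d s hs δ hδ A B {θ // θ ∈ Q} (fun θ p m => F θ p m) (fun θ p => M θ p) B' C' hB'1 hC'0
    (fun θ p hp m => hper θ.1 θ.2 p hp m) (fun θ p hp m => ((hβ θ p hp).1 m).trans (hββ θ))
    (fun θ p hp => (hβ θ p hp).2.trans (hββ θ))
    (fun θ p hp => (hC θ p hp).trans (by
      apply div_le_div_of_nonneg_right _ (Real.sqrt_nonneg _)
      rw [hC']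
      exact single_le_sum (f := C) (fun θ _ => hC0 θ) (mem_univ θ)))
  refine ⟨M₀, y₀ + 2, fun y S u H hy hwell W hW hW1 E hE => ?_⟩
  have hmain := hM y S u H (by omega) hwell W hW hW1 E (fun m hm => hE m fun x hyx hxN w hw q hq => by
    have := hm x (by omega) hyx hxN w hw (fun e => ⟨q e, hq e⟩)
    exact this)
  exact hmain

open Classical in
/-- **Products of local functions of moderate growth at several consecutive primes.** -/
theorem genpTW (d s : ℕ) (hs : 1 ≤ s) (δ : ℝ) (hδ : 0 < δ) (A B : ℕ) {Θ : Type} (Q : Finset Θ)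
    (F : Θ → ℕ → (Fin d → ℕ) → ℝ) (M : Θ → ℕ → ℝ) (η : ℝ) (hη : 0 ≤ η)
    (hper : ∀ θ ∈ Q, ∀ p, p.Prime → ∀ m, F θ p m = F θ p (fun j => m j % p))
    (hbd : ∀ θ ∈ Q, ∃ C : ℝ, ∀ p : ℕ, p.Prime → (∀ m, |F θ p m| ≤ C * (p : ℝ) ^ η) ∧ |M θ p| ≤ C * (p : ℝ) ^ η)
    (hmean : ∀ θ ∈ Q, ∃ C : ℝ, 0 ≤ C ∧ ∀ p, p.Prime → |mean d p (F θ p) - M θ p| ≤ C / Real.sqrt p) :
    ∃ M₀ y₀ : ℕ, ∀ (y : ℕ) (S : Finset ℕ) (u : ℕ → Fin d → ℕ) (H : ℕ), y₀ ≤ y → WellN S u H →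
    ∀ W : ℕ → Set (ℕ → ℝ), (∀ x, (W x).Finite ∧ (W x).ncard ≤ x ^ B) → (∀ x, ∀ w ∈ W x, ∀ k, |w k| ≤ 1) →
    ∀ E : (Fin d → ℕ) → Prop,
    (∀ m : Fin d → ℕ, (∀ x : ℕ, y ≤ x → x ^ M₀ ≤ 2 * H + 1 → ∀ w ∈ W x, ∀ q : Fin s → Θ, (∀ e, q e ∈ Q) →
      |∑ k ∈ range x, w k * ∏ e : Fin s, F (q e) (pr (k + e)) m - ∑ k ∈ range x, w k * ∏ e : Fin s, M (q e) (pr (k + e))| ≤
        Real.sqrt (max 1 (∑ k ∈ range x, w k ^ 2)) * (x : ℝ) ^ (s * η + δ)) → E m) →
    ((S.filter fun t => ¬ E (u t)).card : ℝ) ≤ 1 / (y : ℝ) ^ A * S.card := by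
  have hpη : ∀ p : ℕ, p.Prime → 1 ≤ (p : ℝ) ^ η := fun p hp => Real.one_le_rpow (by exact_mod_cast hp.one_lt.le) hη
  obtain ⟨M₀, y₀, h'⟩ := genTW d s hs (δ / 2) (by positivity) A B Q
    (fun θ p m => F θ p m / (p : ℝ) ^ η) (fun θ p => M θ p / (p : ℝ) ^ η)
    (fun θ hθ p hp m => by
      beta_reduce
      rw [← hper θ hθ p hp m])
    (fun θ hθ => by
      obtain ⟨C, hC⟩ := hbd θ hθ
      refine ⟨C, fun p hp => ⟨fun m => ?_, ?_⟩⟩
      · have h1 := hpη p hp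
        rw [abs_div, abs_of_pos (by linarith : 0 < (p : ℝ) ^ η), div_le_iff₀ (by linarith)]
        exact (hC p hp).1 m
      · have h1 := hpη p hp
        rw [abs_div, abs_of_pos (by linarith : 0 < (p : ℝ) ^ η), div_le_iff₀ (by linarith)]
        exact (hC p hp).2)
    (fun θ hθ => by
      obtain ⟨C, hC0, hC⟩ := hmean θ hθ
      refine ⟨C, hC0, fun p hp => ?_⟩
      have h1 := hpη p hp
      have e1 : mean d p (fun m => F θ p m / (p : ℝ) ^ η) = mean d p (F θ p) / (p : ℝ) ^ η := by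
        unfold Pool.Agent.TH894.NE.mean
        rw [← sum_div]
        ring
      rw [e1, ← sub_div, abs_div, abs_of_pos (by linarith : 0 < (p : ℝ) ^ η)]
      exact (div_le_self (abs_nonneg _) h1).trans (hC p hp))
  -- the growth of the primes
  have hev1 := pr_bound s (δ / (2 * (s * η + 1))) (by positivity)
  obtain ⟨x₀, hx₀⟩ := Filter.eventually_atTop.1 hev1
  refine ⟨M₀, y₀ + x₀ + 1, fun y S u H hy hwell W hW hW1 E hE => ?_⟩
  obtain ⟨PP, hP⟩ : ∃ PP : ℕ → ℝ, PP = fun x => (pr (x + s) : ℝ) := ⟨_, rfl⟩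
  have hPx : ∀ x, PP x = (pr (x + s) : ℝ) := fun x => by rw [hP]
  have hPpos : ∀ x, 0 < PP x := by
    intro x
    rw [hPx]
    exact_mod_cast (pr_prime _).pos
  obtain ⟨g, hg⟩ : ∃ g : ℕ → (ℕ → ℝ) → (ℕ → ℝ), g = fun x w k => if k < x then w k * ∏ e : Fin s, ((pr (k + e) : ℝ) / PP x) ^ η else 0 := ⟨_, rfl⟩
  have hle1 : ∀ x k, k < x → ∀ e : Fin s, 0 ≤ ((pr (k + e) : ℝ) / PP x) ^ η ∧ ((pr (k + e) : ℝ) / PP x) ^ η ≤ 1 := by
    intro x k hk e
    have h1 : (pr (k + e) : ℝ) ≤ PP x := by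
      rw [hPx]
      have : pr (k + e) ≤ pr (x + s) := pr_mono.monotone (by have := e.2; omega)
      exact_mod_cast this
    have h2 : 0 ≤ (pr (k + e) : ℝ) / PP x := div_nonneg (Nat.cast_nonneg _) (hPpos x).le
    exact ⟨by positivity, Real.rpow_le_one h2 ((div_le_one (hPpos x)).2 h1) hη⟩
  have hg1 : ∀ x w k, |w k| ≤ 1 → |g x w k| ≤ |w k| := by
    intro x w k _
    rw [hg]
    show |if k < x then w k * ∏ e : Fin s, ((pr (k + e) : ℝ) / PP x) ^ η else 0| ≤ |w k|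
    by_cases hk : k < x
    · rw [if_pos hk, abs_mul, abs_of_nonneg (prod_nonneg fun e _ => (hle1 x k hk e).1)]
      exact mul_le_of_le_one_right (abs_nonneg _) (prod_le_one (fun e _ => (hle1 x k hk e).1) fun e _ => (hle1 x k hk e).2)
    · rw [if_neg hk, abs_zero]
      exact abs_nonneg _
  refine h' y S u H (by omega) hwell (fun x => g x '' W x) (fun x => ⟨(hW x).1.image _, (Set.ncard_image_le (hW x).1).trans (hW x).2⟩)
    (fun x w' hw' k => by
      obtain ⟨w, hw, rfl⟩ := hw'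
      exact (hg1 x w k (hW1 x w hw k)).trans (hW1 x w hw k)) E fun m hm => ?_
  refine hE m fun x hyx hxr w hw q hq => ?_
  have h1 := hm x hyx hxr (g x w) ⟨w, hw, rfl⟩ q hq
  obtain ⟨T, hT⟩ : ∃ T : ℝ, T = (PP x) ^ η := ⟨_, rfl⟩
  have hT0 : 0 < T := by
    rw [hT]
    have := hPpos x
    positivity
  have hx1 : 1 ≤ x := by omega
  -- the sums
  have h2 : ∀ G : ℕ → Fin s → ℝ, ∑ k ∈ range x, g x w k * ∏ e : Fin s, (G k e / (pr (k + e) : ℝ) ^ η) = (∑ k ∈ range x, w k * ∏ e : Fin s, G k e) / T ^ s := by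
    intro G
    rw [sum_div]
    refine sum_congr rfl fun k hk => ?_
    rw [mem_range] at hk
    rw [hg]
    beta_reduce
    rw [if_pos hk, mul_assoc, ← prod_mul_distrib, mul_div_assoc]
    congr 1
    have e1 : ∀ e : Fin s, ((pr (k + e) : ℝ) / PP x) ^ η * (G k e / (pr (k + e) : ℝ) ^ η) = G k e / T := by
      intro e
      have e2 : (0 : ℝ) < pr (k + e) := by exact_mod_cast (pr_prime _).pos
      rw [Real.div_rpow e2.le (hPpos x).le, hT]
      have e3 : (0 : ℝ) < (pr (k + e) : ℝ) ^ η := by positivity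
      field_simp
    rw [prod_congr rfl (fun e _ => e1 e), prod_div_distrib, prod_const, card_univ, Fintype.card_fin]
  have h3 := h2 (fun k e => F (q e) (pr (k + e)) m)
  have h4 := h2 (fun k e => M (q e) (pr (k + e)))
  have h5 : ∑ k ∈ range x, g x w k * ∏ e : Fin s, (F (q e) (pr (k + e)) m / (pr (k + e) : ℝ) ^ η) -
      ∑ k ∈ range x, g x w k * ∏ e : Fin s, (M (q e) (pr (k + e)) / (pr (k + e) : ℝ) ^ η) =
      (∑ k ∈ range x, w k * ∏ e : Fin s, F (q e) (pr (k + e)) m - ∑ k ∈ range x, w k * ∏ e : Fin s, M (q e) (pr (k + e))) / T ^ s := by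
    rw [sub_div, ← h3, ← h4]
  have h6 := h1
  beta_reduce at h6
  rw [h5, abs_div, abs_of_pos (by positivity : 0 < T ^ s), div_le_iff₀ (by positivity)] at h6
  refine h6.trans ?_
  have h7 : ∑ k ∈ range x, g x w k ^ 2 ≤ ∑ k ∈ range x, w k ^ 2 := by
    refine sum_le_sum fun k _ => ?_
    exact sq_le_sq.2 (hg1 x w k (hW1 x w hw k))
  have hx0 : (0 : ℝ) < x := by exact_mod_cast hx1
  have hx1' : (1 : ℝ) ≤ x := by exact_mod_cast hx1
  have h8 : T ^ s ≤ (x : ℝ) ^ (s * η + δ / 2) := by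
    have e1 := hx₀ x (by omega)
    rw [← hPx] at e1
    have e2 : T ^ s = (PP x) ^ (s * η) := by
      rw [hT, ← Real.rpow_natCast, ← Real.rpow_mul (hPpos x).le]
      congr 1
      ring
    rw [e2]
    have hsη : 0 ≤ s * η := by positivity
    refine (Real.rpow_le_rpow (hPpos x).le e1 hsη).trans ?_
    rw [← Real.rpow_mul hx0.le]
    apply Real.rpow_le_rpow_of_exponent_le hx1'
    have e3 : (1 + δ / (2 * (s * η + 1))) * (s * η) = s * η + δ / 2 * (s * η / (s * η + 1)) := by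
      field_simp
    rw [e3]
    have e4 : s * η / (s * η + 1) ≤ 1 := (div_le_one (by linarith)).2 (by linarith)
    have e5 : δ / 2 * (s * η / (s * η + 1)) ≤ δ / 2 * 1 := mul_le_mul_of_nonneg_left e4 (by linarith)
    linarith
  have h9 : (x : ℝ) ^ (s * η + δ) = (x : ℝ) ^ (δ / 2) * (x : ℝ) ^ (s * η + δ / 2) := by
    rw [← Real.rpow_add hx0]
    congr 1
    ring
  rw [h9]
  have h10 : Real.sqrt (max 1 (∑ k ∈ range x, g x w k ^ 2)) ≤ Real.sqrt (max 1 (∑ k ∈ range x, w k ^ 2)) :=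
    Real.sqrt_le_sqrt (max_le_max le_rfl h7)
  calc Real.sqrt (max 1 (∑ k ∈ range x, g x w k ^ 2)) * (x : ℝ) ^ (δ / 2) * T ^ s ≤
      Real.sqrt (max 1 (∑ k ∈ range x, w k ^ 2)) * (x : ℝ) ^ (δ / 2) * (x : ℝ) ^ (s * η + δ / 2) := by
        apply mul_le_mul _ h8 (by positivity) (by positivity)
        exact mul_le_mul_of_nonneg_right h10 (by positivity)
    _ = _ := by ring

open Pool.Agent.N842.HS

section
variable {R : Type} [CommRing R]

open Classical in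
/-- **Local functions over number fields at several consecutive primes, with weights of the tuples of prime ideals.** -/
theorem genRTW [Module.Finite ℤ R] (g D s : ℕ) (ω : Fin g → R) (hω : (1 : R) ∈ Submodule.span ℤ (Set.range ω)) (hs : 1 ≤ s)
    (δ : ℝ) (hδ : 0 < δ) (A B : ℕ) {Θ : Type} (Q : Finset Θ)
    (G : Θ → ∀ (p : ℕ) [Fact p.Prime], (Fin D → ZMod p) → ℝ) (M : Θ → ℕ → ℝ) (η : ℝ) (hη : 0 ≤ η)
    (hbd : ∀ θ ∈ Q, ∃ C : ℝ, 0 ≤ C ∧ ∀ (p : ℕ) [Fact p.Prime], (∀ u, |G θ p u| ≤ C * (p : ℝ) ^ η) ∧ |M θ p| ≤ C * (p : ℝ) ^ η)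
    (hmean : ∀ θ ∈ Q, ∃ C : ℝ, 0 ≤ C ∧ ∀ (p : ℕ) [Fact p.Prime], |(∑ u : Fin D → ZMod p, G θ p u) / (p : ℝ) ^ D - M θ p| ≤ C / Real.sqrt p) :
    ∃ M₀ y₀ : ℕ, ∀ (y : ℕ) (S : Finset ℕ) (u : ℕ → Fin (D * g) → ℕ) (H : ℕ), y₀ ≤ y → WellN S u H →
    ∀ W : ℕ → Set ((k : ℕ) → ((e : Fin s) → (R →+* ZMod (Nat.nth Nat.Prime (k + e)))) → ℝ), (∀ x, (W x).Finite ∧ (W x).ncard ≤ x ^ B) →
      (∀ x, ∀ w ∈ W x, ∀ k φ, |w k φ| ≤ 1) →
    ∀ E : (Fin (D * g) → ℕ) → Prop,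
    (∀ m : Fin (D * g) → ℕ, (∀ x : ℕ, y ≤ x → x ^ M₀ ≤ 2 * H + 1 → ∀ w ∈ W x, ∀ q : Fin s → Θ, (∀ e, q e ∈ Q) →
      |∑ k ∈ range x, ∑ᶠ φ : (e : Fin s) → (R →+* ZMod (Nat.nth Nat.Prime (k + e))),
          w k φ * (∏ e : Fin s, G (q e) (Nat.nth Nat.Prime (k + e)) (fun j => φ e (cf ω m j)) - ∏ e : Fin s, M (q e) (Nat.nth Nat.Prime (k + e)))| ≤
        Real.sqrt (max 1 (∑ k ∈ range x, ∑ᶠ φ : (e : Fin s) → (R →+* ZMod (Nat.nth Nat.Prime (k + e))), w k φ ^ 2)) *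
          (x : ℝ) ^ (s * η + δ)) → E m) →
    ((S.filter fun t => ¬ E (u t)).card : ℝ) ≤ 1 / (y : ℝ) ^ A * S.card := by
  obtain ⟨n, hn⟩ := hom_card R
  obtain ⟨M₀, y₀, hg⟩ := genpTW (D * g) s hs (δ / 2) (by positivity) A (B + 1) (Q ×ˢ (univ : Finset (Fin n)))
    (fun θ p m => LF ω (G θ.1) θ.2 p m) (fun θ p => LM R (M θ.1) θ.2 p) η hη
    (fun θ _ p _ m => LF_mod ω (G θ.1) θ.2 p m)
    (fun θ hθ => by
      obtain ⟨C, hC0, hC⟩ := hbd θ.1 (mem_product.1 hθ).1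
      refine ⟨C, fun p hp => ?_⟩
      have : Fact p.Prime := ⟨hp⟩
      have hpη : 0 ≤ C * (p : ℝ) ^ η := by positivity
      constructor
      · intro m
        unfold LF
        rw [dif_pos hp]
        split_ifs with h
        · exact (hC p).1 _
        · rw [abs_zero]
          exact hpη
      · unfold LM
        split_ifs with h
        · exact (hC p).2
        · rw [abs_zero]
          exact hpη)
    (fun θ hθ => by
      obtain ⟨C, hC0, hC⟩ := hmean θ.1 (mem_product.1 hθ).1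
      refine ⟨C, hC0, fun p hp => ?_⟩
      have : Fact p.Prime := ⟨hp⟩
      have h1 : mean (D * g) p (fun m => LF ω (G θ.1) θ.2 p m) = if (θ.2 : ℕ) < Nat.card (R →+* ZMod p) then (∑ u : Fin D → ZMod p, G θ.1 p u) / (p : ℝ) ^ D else 0 :=
        LF_mean ω hω (G θ.1) θ.2 p
      rw [h1]
      unfold LM
      split_ifs with h
      · exact hC p
      · rw [sub_zero, abs_zero]
        positivity)
  have hev : ∀ᶠ x : ℕ in Filter.atTop, (n : ℝ) ^ s ≤ (x : ℝ) ^ (δ / 2) :=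
    ((tendsto_rpow_atTop (by positivity : 0 < δ / 2)).comp tendsto_natCast_atTop_atTop).eventually (Filter.eventually_ge_atTop _)
  obtain ⟨x₀, hx₀⟩ := Filter.eventually_atTop.1 hev
  refine ⟨M₀, y₀ + x₀ + n ^ s, fun y S u H hy hwell W hW hW1 E hE => ?_⟩
  obtain ⟨W', hW'⟩ : ∃ W' : ℕ → Set (ℕ → ℝ), W' = fun x => if n ^ s ≤ x then
    (fun z : (Fin s → Fin n) × ((k : ℕ) → ((e : Fin s) → (R →+* ZMod (Nat.nth Nat.Prime (k + e)))) → ℝ) => wt z.2 z.1) '' ((Set.univ : Set (Fin s → Fin n)) ×ˢ W x) else ∅ := ⟨_, rfl⟩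
  have hWc : ∀ x, (W' x).Finite ∧ (W' x).ncard ≤ x ^ (B + 1) := by
    intro x
    rw [hW']
    beta_reduce
    split_ifs with h
    · have hfin : ((Set.univ : Set (Fin s → Fin n)) ×ˢ W x).Finite := Set.finite_univ.prod (hW x).1
      refine ⟨hfin.image _, (Set.ncard_image_le hfin).trans ?_⟩
      rw [Set.ncard_prod, Set.ncard_univ, Nat.card_eq_fintype_card, Fintype.card_fun, Fintype.card_fin, Fintype.card_fin, pow_succ, mul_comm]
      exact Nat.mul_le_mul (hW x).2 h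
    · exact ⟨Set.finite_empty, by rw [Set.ncard_empty]; exact Nat.zero_le _⟩
  refine hg y S u H (by omega) hwell W' hWc (fun x w' hw' k => ?_) E fun m hm => ?_
  · rw [hW'] at hw'
    beta_reduce at hw'
    split_ifs at hw' with h
    · obtain ⟨z, hz, rfl⟩ := hw'
      exact wt_le z.2 (hW1 x z.2 hz.2) z.1 k
    · exact absurd hw' (Set.notMem_empty _)
  · refine hE m fun x hyx hxr w hw q hq => ?_
    have hfin : ∀ k : ℕ, Finite ((e : Fin s) → (R →+* ZMod (Nat.nth Nat.Prime (k + e)))) := by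
      intro k
      have : ∀ e : Fin s, Finite (R →+* ZMod (Nat.nth Nat.Prime (k + e))) := fun e => hom_finite R _
      exact Pi.finite
    have hft : ∀ k : ℕ, Nonempty (Fintype ((e : Fin s) → (R →+* ZMod (Nat.nth Nat.Prime (k + e))))) := fun k => ⟨Fintype.ofFinite _⟩
    have hft2 : ∀ k : ℕ, Fintype ((e : Fin s) → (R →+* ZMod (Nat.nth Nat.Prime (k + e)))) := fun k => (hft k).some
    simp only [finsum_eq_sum_of_fintype]
    -- the decomposition
    have e1 : ∀ k, ∑ φ : (e : Fin s) → (R →+* ZMod (Nat.nth Nat.Prime (k + e))),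
        w k φ * (∏ e : Fin s, G (q e) (Nat.nth Nat.Prime (k + e)) (fun j => φ e (cf ω m j)) - ∏ e : Fin s, M (q e) (Nat.nth Nat.Prime (k + e))) =
        ∑ i : Fin s → Fin n, wt w i k * (∏ e : Fin s, LF ω (G (q e)) (i e) (Nat.nth Nat.Prime (k + e)) m -
          ∏ e : Fin s, LM R (M (q e)) (i e) (Nat.nth Nat.Prime (k + e))) := by
      intro k
      refine sum_num hn k _ _ ?_ ?_
      · intro i hi
        unfold wt
        rw [dif_neg hi, zero_mul]
      · intro i hi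
        exact wt_prod ω w (fun e => G (q e)) (fun e => M (q e)) m i k hi
    have e2 : ∀ k, ∑ φ : (e : Fin s) → (R →+* ZMod (Nat.nth Nat.Prime (k + e))), w k φ ^ 2 = ∑ i : Fin s → Fin n, wt w i k ^ 2 := by
      intro k
      refine sum_num hn k _ _ ?_ ?_
      · intro i hi
        unfold wt
        rw [dif_neg hi, zero_pow two_ne_zero]
      · intro i hi
        unfold wt
        rw [dif_pos hi]
    have hWx : ∀ i : Fin s → Fin n, wt w i ∈ W' x := by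
      intro i
      rw [hW']
      beta_reduce
      rw [if_pos (by omega : n ^ s ≤ x)]
      exact ⟨(i, w), ⟨Set.mem_univ _, hw⟩, rfl⟩
    have e3 : ∀ i : Fin s → Fin n, |∑ k ∈ range x, wt w i k * (∏ e : Fin s, LF ω (G (q e)) (i e) (Nat.nth Nat.Prime (k + e)) m -
          ∏ e : Fin s, LM R (M (q e)) (i e) (Nat.nth Nat.Prime (k + e)))| ≤
        Real.sqrt (max 1 (∑ k ∈ range x, ∑ i : Fin s → Fin n, wt w i k ^ 2)) * (x : ℝ) ^ (s * η + δ / 2) := by
      intro i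
      have h1 := hm x hyx hxr (wt w i) (hWx i) (fun e => (q e, i e)) (fun e => mem_product.2 ⟨hq e, mem_univ _⟩)
      have h2 : ∑ k ∈ range x, wt w i k * (∏ e : Fin s, LF ω (G (q e)) (i e) (Nat.nth Nat.Prime (k + e)) m -
          ∏ e : Fin s, LM R (M (q e)) (i e) (Nat.nth Nat.Prime (k + e))) =
          ∑ k ∈ range x, wt w i k * ∏ e : Fin s, LF ω (G (q e)) (i e) (pr (k + e)) m - ∑ k ∈ range x, wt w i k * ∏ e : Fin s, LM R (M (q e)) (i e) (pr (k + e)) := by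
        rw [← sum_sub_distrib]
        refine sum_congr rfl fun k _ => ?_
        rw [← mul_sub]
        rfl
      rw [h2]
      refine h1.trans ?_
      apply mul_le_mul_of_nonneg_right _ (by positivity)
      apply Real.sqrt_le_sqrt
      apply max_le_max le_rfl
      refine sum_le_sum fun k _ => ?_
      exact single_le_sum (f := fun i : Fin s → Fin n => wt w i k ^ 2) (fun i _ => sq_nonneg _) (mem_univ i)
    simp only [e1, e2]
    rw [sum_comm]
    refine (abs_sum_le_sum_abs _ _).trans ((sum_le_sum fun i _ => e3 i).trans ?_)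
    rw [sum_const, card_univ, Fintype.card_fun, Fintype.card_fin, Fintype.card_fin, nsmul_eq_mul]
    push_cast
    have hx0 : (0 : ℝ) ≤ x := Nat.cast_nonneg x
    by_cases hx1 : x = 0
    · rw [hx1]
      have hn0 : n ^ s = 0 := by omega
      have hn0' : ((n : ℝ)) ^ s = 0 := by exact_mod_cast hn0
      rw [hn0', zero_mul]
      positivity
    · have hx2 : (0 : ℝ) < x := by exact_mod_cast Nat.pos_of_ne_zero hx1
      have h8 := hx₀ x (by omega)
      have h9 : (x : ℝ) ^ (s * η + δ) = (x : ℝ) ^ (δ / 2) * (x : ℝ) ^ (s * η + δ / 2) := by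
        rw [← Real.rpow_add hx2]
        congr 1
        ring
      rw [h9]
      calc (n : ℝ) ^ s * (Real.sqrt (max 1 (∑ k ∈ range x, ∑ i : Fin s → Fin n, wt w i k ^ 2)) * (x : ℝ) ^ (s * η + δ / 2)) ≤
          (x : ℝ) ^ (δ / 2) * (Real.sqrt (max 1 (∑ k ∈ range x, ∑ i : Fin s → Fin n, wt w i k ^ 2)) * (x : ℝ) ^ (s * η + δ / 2)) :=
            mul_le_mul_of_nonneg_right h8 (by positivity)
        _ = _ := by ring

end

section
variable {K : Type} [Field K] [NumberField K]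

open Classical in
/-- **Local functions at the prime ideals of bounded norm.** -/
theorem genVTW (g D : ℕ) (ω : Fin g → 𝓞 K) (hω : (1 : 𝓞 K) ∈ Submodule.span ℤ (Set.range ω))
    (δ : ℝ) (hδ : 0 < δ) (A B : ℕ) {Θ : Type} (Q : Finset Θ)
    (G : Θ → ∀ (p : ℕ) [Fact p.Prime], (Fin D → ZMod p) → ℝ) (M : Θ → ℝ) (η : ℝ) (hη : 0 ≤ η)
    (hbd : ∀ θ ∈ Q, ∃ C : ℝ, 0 ≤ C ∧ ∀ (p : ℕ) [Fact p.Prime], (∀ u, |G θ p u| ≤ C * (p : ℝ) ^ η) ∧ |M θ| ≤ C * (p : ℝ) ^ η)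
    (hmean : ∀ θ ∈ Q, ∃ C : ℝ, 0 ≤ C ∧ ∀ (p : ℕ) [Fact p.Prime], |(∑ u : Fin D → ZMod p, G θ p u) / (p : ℝ) ^ D - M θ| ≤ C / Real.sqrt p) :
    ∃ M₀ y₀ : ℕ, ∀ (y : ℕ) (S : Finset ℕ) (u : ℕ → Fin (D * g) → ℕ) (H : ℕ), y₀ ≤ y → WellN S u H →
    ∀ W : ℕ → Set (HeightOneSpectrum (𝓞 K) → ℝ), (∀ T, (W T).Finite ∧ (W T).ncard ≤ T ^ B) → (∀ T, ∀ w ∈ W T, ∀ v, |w v| ≤ 1) →
    ∀ E : (Fin (D * g) → ℕ) → Prop,
    (∀ m : Fin (D * g) → ℕ, (∀ T : ℕ, y ≤ T → T ^ M₀ ≤ 2 * H + 1 → ∀ w ∈ W T, ∀ θ ∈ Q,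
      ∀ F : HeightOneSpectrum (𝓞 K) → ℝ, (∀ (p : ℕ) [Fact p.Prime] (φ : 𝓞 K →+* ZMod p), F (hv φ) = G θ p (fun j => φ (cf ω m j))) →
      |∑ v ∈ (VT K T).filter (fun v => (Ideal.absNorm v.asIdeal).Prime), w v * ((F v - M θ) * Real.log (Ideal.absNorm v.asIdeal))| ≤
        (T : ℝ) ^ (1 / 2 + η + δ)) → E m) →
    ((S.filter fun t => ¬ E (u t)).card : ℝ) ≤ 1 / (y : ℝ) ^ A * S.card := by
  obtain ⟨n, hn⟩ := hom_card (𝓞 K)
  obtain ⟨M₀, y₀, hg⟩ := genRTW g D 1 ω hω le_rfl (δ / 2) (by positivity) (2 * A + 1) (2 * B + 2) Q G (fun θ _ => M θ) η hη hbd hmean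
  obtain ⟨x₁, hx₁⟩ := Filter.eventually_atTop.1 (ev_err n η δ hη hδ)
  obtain ⟨x₂, hx₂⟩ := Filter.eventually_atTop.1 (pr_bound 0 1 one_pos)
  obtain ⟨a4, ha4⟩ : ∃ a4 : ℕ, a4 = 4 ^ A := ⟨_, rfl⟩
  obtain ⟨Y, hY⟩ : ∃ Y : ℕ, Y = y₀ + x₁ + x₂ + a4 + 1 := ⟨_, rfl⟩
  -- the number `Y ^ 2` and its prime counting function
  refine ⟨M₀, (pr (Y + 1)) ^ 2, fun y S u H hy hwell W hW hW1 E hE => ?_⟩
  have hprY : Y + 2 ≤ pr (Y + 1) := pr_ge (Y + 1)
  have hysq : Y ≤ Nat.sqrt y := by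
    rw [Nat.le_sqrt']
    refine le_trans ?_ hy
    exact Nat.pow_le_pow_left (by omega) 2
  obtain ⟨W', hW'⟩ : ∃ W' : ℕ → Set ((k : ℕ) → ((e : Fin 1) → (𝓞 K →+* ZMod (Nat.nth Nat.Prime (k + e)))) → ℝ),
      W' = fun x => ↑(((range (x ^ 2)).sigma (fun T => (hW T).1.toFinset)).image (fun z => wv x z.2)) := ⟨_, rfl⟩
  have hWc : ∀ x, (W' x).Finite ∧ (W' x).ncard ≤ x ^ (2 * B + 2) := by
    intro x
    rw [hW']
    beta_reduce
    refine ⟨finite_toSet _, ?_⟩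
    rw [Set.ncard_coe_finset]
    refine card_image_le.trans ?_
    rw [card_sigma]
    refine (sum_le_sum (g := fun _ => x ^ (2 * B)) fun T hT => ?_).trans ?_
    · rw [← Set.ncard_eq_toFinset_card _ (hW T).1]
      refine (hW T).2.trans ?_
      rw [mem_range] at hT
      rw [pow_mul]
      exact Nat.pow_le_pow_left hT.le B
    · rw [sum_const, card_range, smul_eq_mul, ← pow_add, add_comm]
  have hmain := hg (Nat.sqrt y) S u H (by omega) hwell W' hWc (fun x w' hw' k φ => ?_) E fun m hm => ?_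
  · have hfac : 1 / ((Nat.sqrt y : ℕ) : ℝ) ^ (2 * A + 1) ≤ 1 / (y : ℝ) ^ A := ?_
    · exact hmain.trans (mul_le_mul_of_nonneg_right hfac (Nat.cast_nonneg _))
    have hy0 : 0 < y := by
      refine lt_of_lt_of_le ?_ hy
      exact pow_pos (pr_prime _).pos 2
    have hs1 : 1 ≤ Nat.sqrt y := by omega
    have h1 : y ≤ 4 * (Nat.sqrt y) ^ 2 := by
      have := Nat.lt_succ_sqrt y
      have h2 : Nat.sqrt y + 1 ≤ 2 * Nat.sqrt y := by omega
      nlinarith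
    apply one_div_le_one_div_of_le (by positivity)
    have h2 : (y : ℝ) ≤ 4 * (Nat.sqrt y : ℝ) ^ 2 := by exact_mod_cast h1
    have h3 : (4 : ℝ) ^ A ≤ Nat.sqrt y := by
      have : 4 ^ A ≤ Nat.sqrt y := by omega
      exact_mod_cast this
    calc (y : ℝ) ^ A ≤ (4 * (Nat.sqrt y : ℝ) ^ 2) ^ A := pow_le_pow_left₀ (Nat.cast_nonneg _) h2 A
      _ = 4 ^ A * (Nat.sqrt y : ℝ) ^ (2 * A) := by rw [mul_pow, ← pow_mul]
      _ ≤ (Nat.sqrt y : ℝ) * (Nat.sqrt y : ℝ) ^ (2 * A) := mul_le_mul_of_nonneg_right h3 (by positivity)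
      _ = (Nat.sqrt y : ℝ) ^ (2 * A + 1) := by ring
  · rw [hW'] at hw'
    beta_reduce at hw'
    rw [mem_coe, mem_image] at hw'
    obtain ⟨z, hz, rfl⟩ := hw'
    rw [mem_sigma, Set.Finite.mem_toFinset] at hz
    exact wv_le x z.2 (hW1 _ _ hz.2) k φ
  · refine hE m fun T hyT hTr w hw θ hθ F hF => ?_
    obtain ⟨x, hx⟩ : ∃ x : ℕ, x = Nat.primeCounting T := ⟨_, rfl⟩
    have hxT : x ≤ T := by rw [hx]; exact pi_le T
    have hYx : Y + 1 ≤ x := by
      rw [hx]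
      have e1 : pr (Y + 1) ≤ T := by
        refine le_trans ?_ (hy.trans hyT)
        exact Nat.le_self_pow two_ne_zero _
      have e2 : Nat.primeCounting (pr (Y + 1)) ≤ Nat.primeCounting T := Nat.monotone_primeCounting e1
      rw [pi_pr] at e2
      omega
    have hTx : T < x ^ 2 := by
      have e1 := hx₂ x (by omega)
      have e2 := lt_pr_pi T
      rw [← hx] at e2
      rw [add_zero] at e1
      have e3 : ((x : ℝ)) ^ ((1 : ℝ) + 1) = (x : ℝ) ^ 2 := by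
        rw [show ((1 : ℝ) + 1) = ((2 : ℕ) : ℝ) by norm_num, Real.rpow_natCast]
      rw [e3] at e1
      have e4 : pr x ≤ x ^ 2 := by exact_mod_cast e1
      omega
    have hsx : Nat.sqrt y ≤ x := by
      have e1 : Nat.sqrt y < x := by
        rw [Nat.sqrt_lt']
        omega
      omega
    have hw' : wv x w ∈ W' x := by
      rw [hW']
      beta_reduce
      rw [mem_coe, mem_image]
      exact ⟨⟨T, w⟩, by rw [mem_sigma, mem_range, Set.Finite.mem_toFinset]; exact ⟨hTx, hw⟩, rfl⟩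
    have h1 := hm x hsx (le_trans (Nat.pow_le_pow_left hxT M₀) hTr) (wv x w) hw' (fun _ => θ) (fun _ => hθ)
    rw [Nat.cast_one, one_mul] at h1
    -- the sum
    have h2 : ∑ v ∈ (VT K T).filter (fun v => (Ideal.absNorm v.asIdeal).Prime), w v * ((F v - M θ) * Real.log (Ideal.absNorm v.asIdeal)) =
        Real.log (Nat.nth Nat.Prime x) * ∑ k ∈ range x, ∑ᶠ φ : (e : Fin 1) → (𝓞 K →+* ZMod (Nat.nth Nat.Prime (k + e))),
          wv x w k φ * (∏ e : Fin 1, G θ (Nat.nth Nat.Prime (k + e)) (fun j => φ e (cf ω m j)) - ∏ e : Fin 1, M θ) := by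
      rw [sum_deg1, ← hx, mul_sum]
      refine sum_congr rfl fun k hk => ?_
      rw [mem_range] at hk
      have hfin : Finite ((e : Fin 1) → (𝓞 K →+* ZMod (Nat.nth Nat.Prime (k + e)))) := by
        have : ∀ e : Fin 1, Finite (𝓞 K →+* ZMod (Nat.nth Nat.Prime (k + e))) := fun e => hom_finite (𝓞 K) _
        exact Pi.finite
      have hft : Fintype ((e : Fin 1) → (𝓞 K →+* ZMod (Nat.nth Nat.Prime (k + e)))) := Fintype.ofFinite _
      rw [finsum_eq_sum_of_fintype, finsum_eq_sum_of_fintype, mul_sum]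
      refine sum_congr rfl fun φ _ => ?_
      rw [Fin.prod_univ_one, Fin.prod_univ_one, hF]
      unfold wv
      rw [if_pos hk]
      have hl := (log_nth x).ne'
      field_simp
    rw [h2, abs_mul, abs_of_pos (log_nth x)]
    refine (mul_le_mul_of_nonneg_left h1 (log_nth x).le).trans ?_
    refine le_trans ?_ (hx₁ x (by omega) T hxT)
    apply mul_le_mul_of_nonneg_left _ (log_nth x).le
    apply mul_le_mul_of_nonneg_right _ (by positivity)
    apply Real.sqrt_le_sqrt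
    apply max_le_max le_rfl
    -- the number of the prime ideals
    have h3 : ∀ k ∈ range x, ∑ᶠ φ : (e : Fin 1) → (𝓞 K →+* ZMod (Nat.nth Nat.Prime (k + e))), wv x w k φ ^ 2 ≤ n := by
      intro k _
      have hfin : Finite ((e : Fin 1) → (𝓞 K →+* ZMod (Nat.nth Nat.Prime (k + e)))) := by
        have : ∀ e : Fin 1, Finite (𝓞 K →+* ZMod (Nat.nth Nat.Prime (k + e))) := fun e => hom_finite (𝓞 K) _
        exact Pi.finite
      have hft : Fintype ((e : Fin 1) → (𝓞 K →+* ZMod (Nat.nth Nat.Prime (k + e)))) := Fintype.ofFinite _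
      rw [finsum_eq_sum_of_fintype]
      refine (sum_le_sum (g := fun _ => (1 : ℝ)) fun φ _ => ?_).trans ?_
      · rw [← sq_abs]
        exact pow_le_one₀ (abs_nonneg _) (wv_le x w (hW1 T w hw) k φ)
      · rw [sum_const, card_univ, nsmul_eq_mul, mul_one]
        have h4 := Fintype.card_le_of_injective _ (num_inj (R := 𝓞 K) (s := 1) hn k)
        rw [Fintype.card_fun, Fintype.card_fin, Fintype.card_fin, pow_one] at h4
        exact_mod_cast h4
    refine (sum_le_sum h3).trans ?_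
    rw [sum_const, card_range, nsmul_eq_mul, mul_comm]

end

open MvPolynomial

section
variable {K : Type} [Field K] [NumberField K] {N d D : ℕ} (e : Fin D ≃ Mon N d)

open Classical in
/-- **The first moment over all prime ideals.** -/
theorem surfTW (hN : 2 ≤ N) (hd : 2 ≤ d) (g q : ℕ) (ω : Fin g → 𝓞 K) (hω : (1 : 𝓞 K) ∈ Submodule.span ℤ (Set.range ω))
    (hq : 2 ≤ q) (hq2 : Even q) (hqd : q ≤ d) (δ : ℝ) (hδ : 0 < δ) (A B : ℕ) :
    ∃ M₀ y₀ : ℕ, ∀ (y : ℕ) (S : Finset ℕ) (u : ℕ → Fin (D * g) → ℕ) (H : ℕ), y₀ ≤ y → WellN S u H →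
    ∀ W : ℕ → Set (HeightOneSpectrum (𝓞 K) → ℝ), (∀ T, (W T).Finite ∧ (W T).ncard ≤ T ^ B) → (∀ T, ∀ w ∈ W T, ∀ v, |w v| ≤ 1) →
    ∀ E : (Fin (D * g) → ℕ) → Prop,
    (∀ m : Fin (D * g) → ℕ, (∀ T : ℕ, y ≤ T → T ^ M₀ ≤ 2 * H + 1 → ∀ w ∈ W T,
      |∑ v ∈ VT K T, w v * ((F0 e v (cf ω m) + F1 e (1 / (2 * (q - 1))) v (cf ω m) - 1) * Real.log (Ideal.absNorm v.asIdeal))| ≤
        (T : ℝ) ^ (1 / 2 + 1 / (2 * ((q : ℝ) - 1)) + δ)) → E m) →
    ((S.filter fun t => ¬ E (u t)).card : ℝ) ≤ 1 / (y : ℝ) ^ A * S.card := by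
  have hD := D_pos e (by omega : 0 < d)
  have hd0 : NeZero d := ⟨by omega⟩
  have hq1 : (0 : ℝ) < q - 1 := by
    have : (2 : ℝ) ≤ q := by exact_mod_cast hq
    linarith
  obtain ⟨η, hηd⟩ : ∃ η : ℝ, η = 1 / (2 * ((q : ℝ) - 1)) := ⟨_, rfl⟩
  have hη : (0 : ℝ) ≤ η := by rw [hηd]; positivity
  have hηq : 1 / 2 ≤ η * ((q : ℝ) - 1) := by
    rw [hηd, div_mul_eq_mul_div, one_mul, le_div_iff₀ (by positivity)]
    linarith
  have hzero : q * ∑ j : Fin d, (j + 1 : ℕ) * (fun _ : Fin d => 0) j ≤ d := by simp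
  have hone : q * ∑ j : Fin d, (j + 1 : ℕ) * one d j ≤ d := by
    have e1 : ∑ j : Fin d, (j + 1 : ℕ) * one d j = 1 := by
      rw [sum_eq_single (0 : Fin d)]
      · unfold one
        simp
      · intro j _ hj
        unfold one
        rw [if_neg hj, mul_zero]
      · intro h
        exact absurd (mem_univ _) h
    rw [e1]
    omega
  have hm0 : ∏ j : Fin d, muk N (j + 1) ((fun _ : Fin d => 0) j) = 1 := by
    simp only [muk_zero, prod_const_one]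
  have hm1 : ∏ j : Fin d, muk N (j + 1) (one d j) = 0 := by
    apply prod_eq_zero (mem_univ (0 : Fin d))
    unfold one
    rw [if_pos rfl]
    exact muk_one N
  obtain ⟨M₀, y₀, h⟩ := genVTW g D ω hω (δ / 2) (by positivity) A B
    ({(fun _ : Fin d => 0), one d} : Finset (Fin d → ℕ)) (fun ρ p _ u => Ft e ρ η p u) (fun ρ => ∏ j : Fin d, muk N (j + 1) (ρ j)) η hη
    (fun ρ _ => ⟨1 + |∏ j : Fin d, muk N (j + 1) (ρ j)|, by positivity, fun p hp => by
      have h1 : (1 : ℝ) ≤ (p : ℝ) ^ η := Real.one_le_rpow (by exact_mod_cast hp.out.one_lt.le) hη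
      constructor
      · intro u
        refine (Ft_le e ρ _ p u).trans ?_
        exact le_mul_of_one_le_left (by linarith) (le_add_of_nonneg_right (abs_nonneg _))
      · refine (prod_muk_bd d ρ p _ hη).trans ?_
        apply mul_le_mul_of_nonneg_right _ (by linarith)
        linarith⟩)
    (fun ρ hρ => by
      rw [mem_insert, mem_singleton] at hρ
      rcases hρ with rfl | rfl
      · exact mean_Ft e hN hd _ q hq hq2 hzero η hηq
      · exact mean_Ft e hN hd _ q hq hq2 hone η hηq)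
  obtain ⟨T₀, hT₀⟩ := Filter.eventually_atTop.1 (ev_high (Module.finrank ℤ (𝓞 K)) η δ hη hδ)
  refine ⟨M₀, y₀ + T₀ + 1, fun y S u H hy hwell W hW hW1 E hE => ?_⟩
  refine h y S u H (by omega) hwell W hW hW1 E fun m hm => ?_
  refine hE m fun T hyT hTr w hw => ?_
  have h0 := hm T hyT hTr w hw (fun _ : Fin d => 0) (mem_insert_self _ _) (fun v => F0 e v (cf ω m)) (fun p _ φ => F0_hv e η hη φ _)
  have h1 := hm T hyT hTr w hw (one d) (mem_insert_of_mem (mem_singleton_self _)) (fun v => F1 e η v (cf ω m)) (fun p _ φ => F1_hv e η φ _)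
  rw [hm0] at h0
  rw [hm1] at h1
  rw [← hηd]
  have hT1 : (1 : ℝ) ≤ T := by exact_mod_cast (by omega : 1 ≤ T)
  have hsplit := sum_filter_add_sum_filter_not (VT K T) (fun v => (Ideal.absNorm v.asIdeal).Prime)
    (fun v => w v * ((F0 e v (cf ω m) + F1 e η v (cf ω m) - 1) * Real.log (Ideal.absNorm v.asIdeal)))
  rw [← hsplit]
  have hdeg1 : ∑ v ∈ (VT K T).filter (fun v => (Ideal.absNorm v.asIdeal).Prime), w v * ((F0 e v (cf ω m) + F1 e η v (cf ω m) - 1) * Real.log (Ideal.absNorm v.asIdeal)) =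
      ∑ v ∈ (VT K T).filter (fun v => (Ideal.absNorm v.asIdeal).Prime), w v * ((F0 e v (cf ω m) - 1) * Real.log (Ideal.absNorm v.asIdeal)) +
      ∑ v ∈ (VT K T).filter (fun v => (Ideal.absNorm v.asIdeal).Prime), w v * ((F1 e η v (cf ω m) - 0) * Real.log (Ideal.absNorm v.asIdeal)) := by
    rw [← sum_add_distrib]
    refine sum_congr rfl fun v _ => ?_
    ring
  have hhigh : |∑ v ∈ (VT K T).filter (fun v => ¬ (Ideal.absNorm v.asIdeal).Prime), w v * ((F0 e v (cf ω m) + F1 e η v (cf ω m) - 1) * Real.log (Ideal.absNorm v.asIdeal))| ≤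
      (Module.finrank ℤ (𝓞 K) : ℝ) * (Real.sqrt T * (2 * (T : ℝ) ^ η * Real.log T)) := by
    refine (abs_sum_le_sum_abs _ _).trans ((sum_le_sum (g := fun _ => 2 * (T : ℝ) ^ η * Real.log T) fun v hv1 => ?_).trans ?_)
    · rw [mem_filter, mem_VT] at hv1
      have hnT : (Ideal.absNorm v.asIdeal : ℝ) ≤ T := by exact_mod_cast hv1.1
      have hn1 : (1 : ℝ) ≤ Ideal.absNorm v.asIdeal := by
        have : Ideal.absNorm v.asIdeal ≠ 0 := by
          rw [Ne, Ideal.absNorm_eq_zero_iff]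
          exact v.ne_bot
        exact_mod_cast Nat.one_le_iff_ne_zero.2 this
      have e1 := F0_le e v (cf ω m)
      have e2 := F1_le e η v (cf ω m)
      have e3 : (Ideal.absNorm v.asIdeal : ℝ) ^ η ≤ (T : ℝ) ^ η := Real.rpow_le_rpow (by linarith) hnT hη
      have e4 : (1 : ℝ) ≤ (T : ℝ) ^ η := Real.one_le_rpow hT1 hη
      have e5 : |F0 e v (cf ω m) + F1 e η v (cf ω m) - 1| ≤ 2 * (T : ℝ) ^ η := by
        rw [abs_le] at e2 ⊢
        constructor <;> linarith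
      have e6 : |Real.log (Ideal.absNorm v.asIdeal)| ≤ Real.log T := by
        rw [abs_of_nonneg (Real.log_nonneg hn1)]
        exact Real.log_le_log (by linarith) hnT
      rw [abs_mul, abs_mul]
      calc |w v| * (|F0 e v (cf ω m) + F1 e η v (cf ω m) - 1| * |Real.log (Ideal.absNorm v.asIdeal)|) ≤ 1 * (2 * (T : ℝ) ^ η * Real.log T) := by
            apply mul_le_mul (hW1 T w hw v) _ (by positivity) zero_le_one
            exact mul_le_mul e5 e6 (abs_nonneg _) (by positivity)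
        _ = _ := one_mul _
    · rw [sum_const, nsmul_eq_mul]
      have e1 := card_high K T
      have e2 : (((VT K T).filter (fun v => ¬ (Ideal.absNorm v.asIdeal).Prime)).card : ℝ) ≤ (Module.finrank ℤ (𝓞 K) : ℝ) * Real.sqrt T := by
        have e3 : (((VT K T).filter (fun v => ¬ (Ideal.absNorm v.asIdeal).Prime)).card : ℝ) ≤ (Module.finrank ℤ (𝓞 K) : ℝ) * (Nat.sqrt T : ℝ) := by exact_mod_cast e1
        refine e3.trans ?_
        apply mul_le_mul_of_nonneg_left _ (Nat.cast_nonneg _)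
        exact Real.nat_sqrt_le_real_sqrt
      have hlog : 0 ≤ Real.log T := Real.log_nonneg hT1
      calc (((VT K T).filter (fun v => ¬ (Ideal.absNorm v.asIdeal).Prime)).card : ℝ) * (2 * (T : ℝ) ^ η * Real.log T) ≤
          ((Module.finrank ℤ (𝓞 K) : ℝ) * Real.sqrt T) * (2 * (T : ℝ) ^ η * Real.log T) := mul_le_mul_of_nonneg_right e2 (by positivity)
        _ = _ := by ring
  rw [hdeg1]
  have hfin := hT₀ T (by omega)
  have habs := abs_add_le (∑ v ∈ (VT K T).filter (fun v => (Ideal.absNorm v.asIdeal).Prime), w v * ((F0 e v (cf ω m) - 1) * Real.log (Ideal.absNorm v.asIdeal)))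
    (∑ v ∈ (VT K T).filter (fun v => (Ideal.absNorm v.asIdeal).Prime), w v * ((F1 e η v (cf ω m) - 0) * Real.log (Ideal.absNorm v.asIdeal)))
  have habs2 := abs_add_le (∑ v ∈ (VT K T).filter (fun v => (Ideal.absNorm v.asIdeal).Prime), w v * ((F0 e v (cf ω m) - 1) * Real.log (Ideal.absNorm v.asIdeal)) +
    ∑ v ∈ (VT K T).filter (fun v => (Ideal.absNorm v.asIdeal).Prime), w v * ((F1 e η v (cf ω m) - 0) * Real.log (Ideal.absNorm v.asIdeal)))
    (∑ v ∈ (VT K T).filter (fun v => ¬ (Ideal.absNorm v.asIdeal).Prime), w v * ((F0 e v (cf ω m) + F1 e η v (cf ω m) - 1) * Real.log (Ideal.absNorm v.asIdeal)))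
  linarith

end


end Pool.Agent.U569.WN
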